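import Pool.Agent.H519R3.RS.LUS
import Pool.Agent.Results.MP_b525bf_ag.CurveProducts

/-!
MP_3029eb_ag: local uniformization for the local rings of the quotients of products of curves of
characteristic `p` by diagonal automorphisms of order `p`.
-/

set_option autoImplicit false

open AlgebraicGeometry CategoryTheory TensorProduct Pool.Agent.H920R2 Pool.Agent.H519R3.RS
open Pool.Agent.Results.MP_b525bf_ag.CurveProducts (invariants)

namespace Pool.Agent.Results.MP_3029eb_ag.CurveProductQuotients

/-- Let `p` be a prime, `k` a perfect field of characteristic `p`, and `A i` finitely many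
Dedekind domains which are smooth over `k` and not fields (smooth affine curves), whose tensor
product is a domain, which is automatic if `k` is algebraically closed. Let `σ i` be automorphisms
of the `A i` over `k` with `(σ i) ^ p = 1`, and let `R` be the localization of the ring of
invariants of the diagonal automorphism of the tensor product of the `A i` at an arbitrary prime
ideal, i.e. the local ring of the quotient of the product of the curves at an arbitrary point. Then
`R` admits local uniformization. -/
theorem result (p : ℕ) [Fact p.Prime] (k : Type) [Field k] [CharP k p] [PerfectField k] (n : ℕ)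
    (A : Fin n → Type) [∀ i, CommRing (A i)] [∀ i, IsDedekindDomain (A i)]
    [∀ i, Algebra k (A i)] [∀ i, Algebra.Smooth k (A i)] (hA : ∀ i, ¬ IsField (A i))
    (hdom : IsAlgClosed k ∨ IsDomain (⨂[k] i, A i))
    (σ : ∀ i, A i ≃ₐ[k] A i) (hσ : ∀ i, σ i ^ p = 1) (P : Ideal (invariants σ)) [P.IsPrime]
    (R : Type) [CommRing R] [IsLocalRing R] [Algebra (invariants σ) R]
    [IsLocalization.AtPrime R P] : AdmitsLU R := by
  have hdomB : IsDomain (⨂[k] i, A i) := by
    rcases hdom with h | h
    · exact isDomain_pi n A
    · exact h
  have h : HasResolution (X := Spec (CommRingCat.of (invariants σ)))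
      (Spec.map (CommRingCat.ofHom (algebraMap k (invariants σ)))) :=
    (Pool.Agent.Results.MP_b525bf_ag.CurveProducts.result p k n A hA hdom σ hσ).2
  exact admitsLU_of_res h P R

end Pool.Agent.Results.MP_3029eb_ag.CurveProductQuotients
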