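import Pool.Agent.H519R3.RS.LUS
import Pool.Agent.H920R2.Sig10

/-!
MP_3029eb_ag: local uniformization for the local rings of the quotients of affine spaces by linear
actions of groups of order `p` in characteristic `p`, in all dimensions.
-/

set_option autoImplicit false

open AlgebraicGeometry CategoryTheory MvPolynomial Pool.Agent.H920R2 Pool.Agent.H519R3.RS

namespace Pool.Agent.Results.MP_3029eb_ag.LinearQuotients

/-- The ring of invariants of the linear substitution `X i ↦ ∑ j, M i j * X j` on the polynomial
ring in `n` variables over `k`. -/
noncomputable def linInvariants {k : Type} [Field k] {n : ℕ} (M : Matrix (Fin n) (Fin n) k) :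
    Subalgebra k (MvPolynomial (Fin n) k) :=
  AlgHom.equalizer
    (aeval fun i => ∑ j, C (M i j) * X j : MvPolynomial (Fin n) k →ₐ[k] MvPolynomial (Fin n) k)
    (AlgHom.id k (MvPolynomial (Fin n) k))

/-- Let `k` be a field of characteristic `p` and `M` a matrix with `M ^ p = 1`, that is, a linear
action of a group of order `p` on the affine `n`-space over `k`. Then the local ring of the quotient
at every point, of arbitrary dimension, admits local uniformization: `R` is the localization of the
ring of invariants at an arbitrary prime ideal. -/
theorem result (p : ℕ) [Fact p.Prime] (k : Type) [Field k] [CharP k p] (n : ℕ)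
    (M : Matrix (Fin n) (Fin n) k) (hM : M ^ p = 1) (P : Ideal (linInvariants M)) [P.IsPrime]
    (R : Type) [CommRing R] [IsLocalRing R] [Algebra (linInvariants M) R]
    [IsLocalization.AtPrime R P] : AdmitsLU R := by
  have h : HasResolution (X := Spec (CommRingCat.of (linInvariants M)))
      (Spec.map (CommRingCat.ofHom (algebraMap k (linInvariants M)))) :=
    hasResolution_linInv_p M p Fact.out (CharP.cast_eq_zero k p) hM
  exact admitsLU_of_res h P R

end Pool.Agent.Results.MP_3029eb_ag.LinearQuotients
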