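import Pool.Agent.H519R3.RS.LUS
import Pool.Agent.Results.MP_b525bf_ag.PermutationPowers

/-!
MP_3029eb_ag: local uniformization for the local rings of the quotients of powers of smooth
varieties of characteristic `p` by permutations of the factors of order `p`.
-/

set_option autoImplicit false

open AlgebraicGeometry CategoryTheory TensorProduct Pool.Agent.H920R2 Pool.Agent.H519R3.RS
open Pool.Agent.Results.MP_b525bf_ag.PermutationPowers (invariants)

namespace Pool.Agent.Results.MP_3029eb_ag.PowerQuotients

/-- Let `k` be a field of characteristic `p`, `W = Spec A` a smooth integral affine scheme over `k`,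
of arbitrary dimension, such that `W ^ n` is integral, which is automatic if `k` is algebraically
closed, and `π` a permutation of `n` letters with `π ^ p = 1`. Let `R` be the localization of the
ring of invariants of the permutation `π` of the factors of the `n`-th tensor power of `A` at an
arbitrary prime ideal, i.e. the local ring of the quotient of `W ^ n` at an arbitrary point. Then
`R` admits local uniformization. -/
theorem result (p : ℕ) [Fact p.Prime] (k : Type) [Field k] [CharP k p]
    (A : Type) [CommRing A] [IsDomain A] [Algebra k A] [Algebra.Smooth k A] (n : ℕ)
    (hdom : IsAlgClosed k ∨ IsDomain (⨂[k] _ : Fin n, A))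
    (π : Equiv.Perm (Fin n)) (hπ : π ^ p = 1) (P : Ideal (invariants k A π)) [P.IsPrime]
    (R : Type) [CommRing R] [IsLocalRing R] [Algebra (invariants k A π) R]
    [IsLocalization.AtPrime R P] : AdmitsLU R := by
  have hdomB : IsDomain (⨂[k] _ : Fin n, A) := by
    rcases hdom with h | h
    · exact isDomain_pi n fun _ => A
    · exact h
  have h : HasResolution (X := Spec (CommRingCat.of (invariants k A π)))
      (Spec.map (CommRingCat.ofHom (algebraMap k (invariants k A π)))) :=
    (Pool.Agent.Results.MP_b525bf_ag.PermutationPowers.result p k A n hdom π hπ).2
  exact admitsLU_of_res h P R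

end Pool.Agent.Results.MP_3029eb_ag.PowerQuotients
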