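import Pool.Agent.H519R3.RS.LU

/-!
MP_3029eb_ag: local uniformization for the local rings, of every dimension, of the iterated
quotients of (possibly singular) varieties of characteristic `p` by `p`-closed vector fields and
automorphisms of order `p` whose leading forms have no zeros outside the vertex of a smooth weighted
blowup.
-/

set_option autoImplicit false

open AlgebraicGeometry CategoryTheory Pool.Agent.H920R2 Pool.Agent.H519R3.RS

namespace Pool.Agent.Results.MP_3029eb_ag.WildTowers

/-- Local uniformization of `R`: for every valuation of the field of fractions `K` of `R`, with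
valuation ring `V`, which is centred on `R`, there is a finitely generated `R`-subalgebra `A` of `K`
with `A ⊆ V` whose localization at the centre of the valuation is regular. -/
def AdmitsLU (R : Type) [CommRing R] [IsLocalRing R] : Prop :=
  ∀ (K : Type) [Field K] [Algebra R K] [IsFractionRing R K] (V : ValuationSubring K),
    (∀ r : R, algebraMap R K r ∈ V) →
    (∀ r : R, r ∈ IsLocalRing.maximalIdeal R ↔ V.valuation (algebraMap R K r) < 1) →
    ∃ A : Subalgebra R K, A.FG ∧ (∀ a : A, (a : K) ∈ V) ∧
      ∃ Q : Ideal A, ∃ (_ : Q.IsPrime), (∀ a : A, a ∈ Q ↔ V.valuation (a : K) < 1) ∧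
        IsRegularLocalRing (Localization.AtPrime Q)

/-- Let `B` be a domain over a field `k` of characteristic `p` and `F` a decreasing multiplicative
filtration of `B` by ideals, with `F 0 = B` and `F 1 ≠ 0`, such that

* either the weighted blowup of `F` is smooth (`Good`): the extended Rees algebra of `F`, the sum
  of the `F d T ^ d` for `d > 0` and of the `B T ^ d` for `d ≤ 0`, is of finite type and its
  localizations at the nonzero elements `b T ^ d` with `d > 0` are smooth over `k` (here `B` may
  be singular),
* or `B` is smooth and `F` is a regular weighted centre.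

Let `B = C 0 ⊇ C 1 ⊇ ... ⊇ C n` be a chain of subalgebras such that, for every `i`,

* either `C (i + 1)` is the ring of constants of a `p`-closed derivation `D` of `C i` (`DStep`),
  which raises the weights of the filtration induced by `F` on `C i` by some `l ≥ 0`, whose zeros
  lie in the centre and whose leading form has no zeros outside the vertex,
* or `C (i + 1)` is the ring of invariants of an automorphism `σ` of `C i` with `σ ^ p = 1`
  (`SStep`), such that `σ - 1` raises the weights by some `l > 0`, the fixed points of `σ` lie in
  the centre and the leading form of `σ - 1` has no zeros outside the vertex.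

Then the localization of `C n` at an arbitrary prime ideal admits local uniformization. -/
theorem result (p : ℕ) [Fact p.Prime] (k : Type) [Field k] [CharP k p] (B : Type)
    [CommRing B] [IsDomain B] [Algebra k B] (F : ℕ → Ideal B) (hF : IsFilt F) (hne : F 1 ≠ ⊥)
    (hG : Good k hF ∨ (Algebra.Smooth k B ∧ RegularWeightedCentre k F))
    (n : ℕ) (C : ℕ → Subalgebra k B) (hC0 : C 0 = ⊤)
    (hC : ∀ i < n, DStep p F (C i) (C (i + 1)) ∨ SStep p F (C i) (C (i + 1)))
    (P : Ideal (C n)) [P.IsPrime] (R : Type) [CommRing R] [IsLocalRing R] [Algebra (C n) R]
    [IsLocalization.AtPrime R P] : AdmitsLU R := by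
  have hp : p.Prime := Fact.out
  have hpk : (p : k) = 0 := CharP.cast_eq_zero k p
  have hG' : Good k hF := by
    rcases hG with h | ⟨h1, h2⟩
    · exact h
    · exact good_of_centre hF h2
  have key : ∀ i ≤ n, Good k (isFilt_restr hF (C i)) ∧ restr F (C i) 1 ≠ ⊥ := by
    intro i
    induction i with
    | zero => intro _; exact good_top hF hG' hne hC0
    | succ i ih =>
      intro hi
      obtain ⟨h1, h2⟩ := ih (by omega)
      rcases hC i (by omega) with h | h
      · exact good_dstep hp hpk hF h h1 h2
      · exact good_sstep hp hpk hF h h1 h2
  obtain ⟨h1, h2⟩ := key n le_rfl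
  intro K _ _ _ V hV hVm
  let g0 : C n →+* K := (algebraMap R K).comp (algebraMap (C n) R)
  let _ : Algebra k K := (g0.comp (algebraMap k (C n))).toAlgebra
  let g : C n →ₐ[k] K := { g0 with commutes' := fun r => rfl }
  have hginj : Function.Injective g := by
    have e1 : Function.Injective (algebraMap (C n) R) :=
      IsLocalization.injective R P.primeCompl_le_nonZeroDivisors
    have e2 : Function.Injective (algebraMap R K) := IsFractionRing.injective R K
    exact e2.comp e1
  have hGE := (good_iff g _ hginj).1 h1
  obtain ⟨D, hD1, hD2, hD3⟩ := lu_goodE g _ hginj hGE h2 V (fun a => hV _)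
  refine lu_local P g (fun a => rfl) V hV ?_ D hD1 hD2 hD3
  intro a ha hlt
  have h3 := (hVm (algebraMap (C n) R a)).2 hlt
  exact h3 (IsLocalization.map_units R (⟨a, ha⟩ : P.primeCompl))

end Pool.Agent.Results.MP_3029eb_ag.WildTowers
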